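import Pool.Agent.P8H6.Log.Fin

/-!
# Almost every admissible set of `8 k ^ 2 + 1` shifts contains a pattern of `k + 1` consecutive primes that occurs
as often as the conjecture predicts, up to a constant

The quantitative form of the conjecture (Hardy and Littlewood, with a sieve for the other shifts): a fixed
admissible set `F` of `k + 1` elements, or one whose elements are a small multiple of `log x`, is realised as
consecutive primes by about `𝔖 F x / (log x) ^ (k + 1)` integers `n ≤ x`. The theorem: for almost all admissible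
sets `H` of `8 k ^ 2 + 1` positive integers up to `Λ log x`, some subset `F` of `H` with `k + 1` elements is
realised as consecutive primes by at least `δ 𝔖 F x / (log x) ^ (k + 1)` integers `n ≤ x`. The proportion of the
exceptional `H` is at most a power of `δ` plus a negative power of `log x`, uniformly in `δ`, so that `δ` may
tend to zero with `x`.

Method. The coloured Maynard-Tao theorem with the right order of magnitude of the starting files
(`Pool.Agent.W70.HRC`, `MTc`): `8 k ^ 2 + 1` classes of `K = K(k)` shifts of a residue class modulo the product of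
the small primes. The number of exceptional boxes is linear in `δ` (`Log.Exc`), hence there are few exceptional
sets in each residue class (`Log.Tup`, blow-up inequality), hence few globally exceptional sets (`Log.Avg`).
-/

set_option autoImplicit false

open Finset

namespace Pool.Agent.Results.MP_3ec731_nt.AlmostEveryLogScale

/-- the numbers `n + f`, `f ∈ F`, are consecutive primes: they are primes, and every prime `n + j`
between two of them is one of them -/
def Consecutive (n : ℕ) (F : Finset ℕ) : Prop :=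
  (∀ f ∈ F, (n + f).Prime) ∧
    ∀ j : ℕ, (∃ a ∈ F, a ≤ j) → (∃ b ∈ F, j ≤ b) → (n + j).Prime → j ∈ F

/-- the number of `n ≤ x` for which the numbers `n + f`, `f ∈ F`, are consecutive primes -/
noncomputable def count (x : ℕ) (F : Finset ℕ) : ℕ :=
  Set.ncard {n : ℕ | 1 ≤ n ∧ n ≤ x ∧ Consecutive n F}

/-- the number of residue classes modulo `p` occupied by `F` -/
def nu (F : Finset ℕ) (p : ℕ) : ℕ := (F.image (· % p)).card

/-- `F` misses a residue class modulo every prime -/
def Admissible (F : Finset ℕ) : Prop := ∀ p : ℕ, p.Prime → nu F p < p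

/-- the factor at `p` of the singular series -/
noncomputable def loc (F : Finset ℕ) (p : ℕ) : ℝ :=
  (1 - (nu F p : ℝ) / p) / (1 - 1 / (p : ℝ)) ^ F.card

/-- the singular series of `F` -/
noncomputable def 𝔖 (F : Finset ℕ) : ℝ := ∏' p : Nat.Primes, loc F p

/-- the admissible sets `H` of `8 k ^ 2 + 1` positive integers up to `Λ log x`, no subset `F` of which with
`k + 1` elements is realised as consecutive primes by at least `δ 𝔖 F x / (log x) ^ (k + 1)` integers `n ≤ x` -/
def Exceptional (k : ℕ) (Λ δ : ℝ) (x : ℕ) : Set (Finset ℕ) :=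
  {H | H.card = 8 * k ^ 2 + 1 ∧ (∀ h ∈ H, 1 ≤ h ∧ (h : ℝ) ≤ Λ * Real.log x) ∧ Admissible H ∧
    ∀ F ⊆ H, F.card = k + 1 → (count x F : ℝ) < δ * 𝔖 F * (x / Real.log x ^ (k + 1))}

open Pool.Agent.H387R2.Uni Pool.Agent.W70.HRC Pool.Agent.P8H6.Log

theorem cnT_le {X x : ℕ} (hx : 2 * X ≤ x) (_ : 1 ≤ X) (F : Finset ℕ) : cnT X F ≤ count x F := by
  classical
  unfold cnT count
  rw [← Set.ncard_coe_finset]
  apply Set.ncard_le_ncard
  · intro n hn
    rw [mem_coe, mem_filter, mem_Ico] at hn
    exact ⟨by omega, by omega, hn.2⟩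
  · exact (Set.finite_le_nat x).subset fun n hn => hn.2.1

/-- The products `𝔖 F` converge, and they are positive for the admissible sets `F`. For every `k ≥ 1` there are
positive `Λ`, `κ`, `C` and `x₀` such that for all `x ≥ x₀` and all `δ > 0` there are at most
`C (δ ^ κ + (log x) ^ (- κ)) (log x) ^ (8 k ^ 2 + 1)` exceptional sets. -/
theorem result :
    (∀ F : Finset ℕ, HasProd (fun p : Nat.Primes => loc F p) (𝔖 F) ∧ (Admissible F → 0 < 𝔖 F)) ∧
    ∀ k : ℕ, 1 ≤ k → ∃ Λ κ C : ℝ, 0 < Λ ∧ 0 < κ ∧ 0 < C ∧ ∃ x₀ : ℕ, ∀ x : ℕ, x₀ ≤ x →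
      ∀ δ : ℝ, 0 < δ → ((Exceptional k Λ δ x).ncard : ℝ) ≤
        C * (δ ^ κ + Real.log x ^ (-κ)) * Real.log x ^ (8 * k ^ 2 + 1) := by
  classical
  refine ⟨fun F => ⟨CT_hasProd F, fun hF => ?_⟩, fun k hk => ?_⟩
  · have h1 : 0 < CT F := by
      rw [← CT_en]
      apply Pool.Agent.H386R2.HL.singularSeries_pos (en_inj F)
      intro p hp
      rw [nu_en]
      exact hF p hp
    exact h1
  obtain ⟨Λ, κ, C, hΛ, hΛ1, hκ, hC, X₀, h⟩ := main_k k hk
  refine ⟨Λ / 2, κ, C * (3 ^ κ + 2 ^ κ), by positivity, hκ, by positivity, 2 * X₀ + 40,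
    fun x hx δ hδ => ?_⟩
  obtain ⟨X, hX⟩ : ∃ X : ℕ, X = x / 2 := ⟨_, rfl⟩
  have hX1 : 2 * X ≤ x := by omega
  have hX6 : 16 ≤ X := by omega
  have hXX₀ : X₀ ≤ X := by omega
  have hXr : (16 : ℝ) ≤ X := by exact_mod_cast hX6
  have hxr : (X : ℝ) ≤ x := by exact_mod_cast (by omega : X ≤ x)
  have hx3 : (x : ℝ) ≤ 3 * X := by exact_mod_cast (by omega : x ≤ 3 * X)
  have hL : 0 < Real.log X := Real.log_pos (by linarith)
  have hLx : Real.log X ≤ Real.log x := Real.log_le_log (by linarith) hxr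
  have hL2 : Real.log x ≤ 2 * Real.log X := by
    have h1 : (x : ℝ) ≤ (X : ℝ) ^ 2 := by nlinarith
    calc Real.log x ≤ Real.log ((X : ℝ) ^ 2) := Real.log_le_log (by linarith) h1
      _ = 2 * Real.log X := by rw [Real.log_pow]; norm_num
  have hlx : 0 < Real.log x := by linarith
  have hsub : Exceptional k (Λ / 2) δ x ⊆ (BadH k (8 * k ^ 2 + 1) Λ (3 * δ) X : Set (Finset ℕ)) := by
    rintro H ⟨hHc, hHr, hHa, hHb⟩
    rw [mem_coe]
    unfold BadH Ap
    rw [mem_filter, mem_powersetCard]
    refine ⟨⟨fun a ha => ?_, hHc⟩, hHa, fun F hF hFc => ?_⟩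
    · obtain ⟨h1, h2⟩ := hHr a ha
      rw [mem_Icc]
      refine ⟨h1, Nat.le_floor (h2.trans ?_)⟩
      calc Λ / 2 * Real.log x ≤ Λ / 2 * (2 * Real.log X) := by gcongr
        _ = Λ * Real.log X := by ring
    · have h1 := hHb F hF hFc
      have h2 : (cnT X F : ℝ) ≤ count x F := by exact_mod_cast cnT_le hX1 (by omega) F
      refine (h2.trans_lt h1).trans_le ?_
      have h3 : 0 ≤ 𝔖 F := CT_nonneg F
      have h4 : (x : ℝ) / Real.log x ^ (k + 1) ≤ 3 * X / Real.log X ^ (k + 1) := by
        apply div_le_div₀ (by positivity) hx3 (by positivity)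
        exact pow_le_pow_left₀ hL.le hLx _
      have h5 : CT F = 𝔖 F := rfl
      rw [h5]
      calc δ * 𝔖 F * (x / Real.log x ^ (k + 1)) ≤
          δ * 𝔖 F * (3 * X / Real.log X ^ (k + 1)) := by gcongr
        _ = 3 * δ * (𝔖 F * (X / Real.log X ^ (k + 1))) := by ring
  have h1 : ((Exceptional k (Λ / 2) δ x).ncard : ℝ) ≤
      ((BadH k (8 * k ^ 2 + 1) Λ (3 * δ) X).card : ℝ) := by
    have h2 := Set.ncard_le_ncard hsub (Finset.finite_toSet _)
    rw [Set.ncard_coe_finset] at h2
    exact_mod_cast h2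
  refine h1.trans ((h X hXX₀ (3 * δ) (by positivity)).trans ?_)
  have e1 : (3 * δ) ^ κ = 3 ^ κ * δ ^ κ := Real.mul_rpow (by norm_num) hδ.le
  have e2 : Real.log X ^ (-κ) ≤ 2 ^ κ * Real.log x ^ (-κ) := by
    have h3 : Real.log x / 2 ≤ Real.log X := by linarith
    calc Real.log X ^ (-κ) ≤ (Real.log x / 2) ^ (-κ) :=
          Real.rpow_le_rpow_of_nonpos (by positivity) h3 (by linarith)
      _ = 2 ^ κ * Real.log x ^ (-κ) := by
          rw [Real.div_rpow hlx.le (by norm_num), Real.rpow_neg (by norm_num : (0:ℝ) ≤ 2),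
            div_inv_eq_mul, mul_comm]
  have e3 : Real.log X ^ (8 * k ^ 2 + 1) ≤ Real.log x ^ (8 * k ^ 2 + 1) :=
    pow_le_pow_left₀ hL.le hLx _
  have p1 : 0 < δ ^ κ := Real.rpow_pos_of_pos hδ _
  have p2 : 0 < Real.log x ^ (-κ) := Real.rpow_pos_of_pos hlx _
  have p3 : (0 : ℝ) < 3 ^ κ := by positivity
  have p4 : (0 : ℝ) < 2 ^ κ := by positivity
  have p5 : 0 < Real.log X ^ (-κ) := Real.rpow_pos_of_pos hL _
  apply mul_le_mul _ e3 (by positivity) (by positivity)
  rw [mul_assoc]
  apply mul_le_mul_of_nonneg_left _ hC.le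
  rw [e1]
  nlinarith [mul_pos p3 p2, mul_pos p4 p1]

end Pool.Agent.Results.MP_3ec731_nt.AlmostEveryLogScale
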