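import Mathlib
import Pool.Agent.P8H6.Blk.Almost

/-!
# Almost every admissible set of `8 k ^ 2 + 1` integers contains `k + 1` consecutive primes infinitely often

The conjecture: for every admissible set `H` there are infinitely many `n` such that the numbers `n + h`,
`h ∈ H`, are consecutive primes. Known for every admissible `H` (Maynard, Tao): some `k + 1` elements of `H` occur
as consecutive primes infinitely often, if the size of `H` is exponential in `k`. The theorem: the size
`8 k ^ 2 + 1` is enough for almost all admissible `H`, with a power saving in the number of exceptions. This holds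
among the tuples with coordinates in any given finite sets `V i` of integers, and `n` may be prescribed modulo `q`;
the constants depend on `k` only.

Method. A coloured Maynard-Tao theorem (sieve estimates of `Pool.Agent.H362R2.CM`): with `T > 8 k ^ 2` classes of
`K = K(k)` positions the weighted mean of `N - k * #(pairs of primes in one class)` exceeds `k`, where `N` is the
number of the positions at which there are primes. Hence some `k + 1` consecutive primes lie in different classes
(`Pool.Agent.W978.HRC.win`). All the positions outside of the classes are made composite by congruences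
(`Pool.Agent.TH779.Shat.congruences`). If there were many exceptional tuples then they would contain a box of side
`K` (Erdos), the sides of which are such classes.
-/

set_option autoImplicit false

namespace Pool.Agent.Results.MP_3ec731_nt.AlmostEveryPattern

/-- For infinitely many `n` with `n ≡ r` modulo `q` all the numbers `n + f`, `f ∈ F`, are primes, and every prime
between the smallest and the largest of them is one of them. -/
def OftenConsecutive (q : ℕ) (r : ℤ) (F : Finset ℤ) : Prop :=
  {n : ℕ | (n : ℤ) ≡ r [ZMOD q] ∧ (∀ f ∈ F, ∃ p : ℕ, p.Prime ∧ (p : ℤ) = n + f) ∧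
    ∀ p : ℕ, p.Prime → (∃ f ∈ F, (n : ℤ) + f ≤ p) → (∃ f ∈ F, (p : ℤ) ≤ n + f) →
      (p : ℤ) - n ∈ F}.Infinite

theorem result (k : ℕ) (hk : 1 ≤ k) : ∃ c C : ℝ, 0 < c ∧ 0 < C ∧
    ∀ (q : ℕ) (r : ℤ), 1 ≤ q → ∀ (n : ℕ) (V : Fin (8 * k ^ 2 + 1) → Finset ℤ), 1 ≤ n →
      (∀ i, n ≤ (V i).card) →
      (Set.ncard {v : Fin (8 * k ^ 2 + 1) → ℤ | (∀ i, v i ∈ V i) ∧ Function.Injective v ∧
        (∀ p : ℕ, p.Prime → ∃ m : ℤ, ∀ i, ¬ (p : ℤ) ∣ m + v i) ∧
        (∀ i, IsCoprime (r + v i) (q : ℤ)) ∧
        ¬ ∃ F : Finset ℤ, (∀ f ∈ F, f ∈ Set.range v) ∧ F.card = k + 1 ∧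
          OftenConsecutive q r F} : ℝ) ≤ C / (n : ℝ) ^ c * ∏ i, ((V i).card : ℝ) := by
  obtain ⟨c, C, hc, hC, h⟩ := Pool.Agent.P8H6.Blk.almost k (8 * k ^ 2 + 1) hk (Nat.lt_succ_self _)
  refine ⟨c, C, hc, hC, fun q r hq n V hn hV => ?_⟩
  refine le_trans (le_of_eq ?_) (h q r hq n V hn hV)
  rw [← Set.ncard_coe_finset]
  congr 2
  ext v
  rw [Finset.mem_coe, Pool.Agent.P8H6.Blk.mem_Exc]
  rfl

end Pool.Agent.Results.MP_3ec731_nt.AlmostEveryPattern
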