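import Mathlib
import Pool.Agent.P8H77.SG.App3

/-!
# Every sufficiently large multiple of twelve is a sum of three gaps between consecutive primes

The case `k = 2` of the problem asks whether every even number `d` is infinitely often the difference of two
consecutive primes. Theorem: every sufficiently large multiple `n` of `12` is a sum `d₁ + d₂ + d₃` of three
numbers with this property, in at least `c n ^ 2` ways (`c > 0`); each of the three is the difference of two
consecutive primes for at least `x / (log x) ^ C` primes up to `x`, for arbitrarily large `x`.

More generally, let `N` be even, `a` prime to `N`, and `m` a positive multiple of `N`. Every sufficiently large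
multiple `n` of `6 m` is a sum of three gaps, all of them multiples of `m`, which occur in this sense after
primes `≡ a (mod N)`, again in at least `c n ^ 2` ways.

The proof. The coloured Maynard-Tao theorem with exact patterns (starting files,
`Pool.Agent.Y827.RO.blockE`) gives: any four classes of `K` shifts which miss a residue class modulo every prime
contain two shifts, of different classes, whose difference is in the set `D` of these gaps. Suppose that for
arbitrarily large multiples `n = 6 k` (in units of `m`) there are few representations as a sum of three elements
of `D`. Then there are long increasing sequences `b` of highly divisible numbers, `b j = q (u j + v j ^ 2)`, such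
that no relation `n = d₁ + d₂ + d₃` arises from the numbers below. Consider, along ultrafilters, the sets of the
`z` (multiples of `3`) for which `b j - b i + z`, `n - (b j - b i) + z`, `n / 2 - (b j - b i) + z` and
`n / 3 ± (b j - b i) + z` are in `D`. The second and the third set are not empty: otherwise `D` has arbitrarily
long holes, and translation of two classes into a hole shows that already any two classes have a difference in
`D`. Four classes `b i, b i + x, n - t + b i, n - t + b i + x` show that the first set `R` is closed under
addition and subtraction, so that it is the group of all multiples of `2` or of `3` (of `3 ℤ`). The first case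
contradicts the fact that `n` is not the sum of two elements near `n / 2` and one element of `R`; the second
case contradicts that `n` is not the sum of three elements near `n / 3`.
-/

set_option autoImplicit false

namespace Pool.Agent.Results.MP_3ec731_nt.SumsOfThreeGaps

open Filter

/-- `d` is a gap between consecutive primes which occurs often: there is `C` such that for arbitrarily large
`x` there are at least `x / (log x) ^ C` indices `k` with `p_k ≤ x`, `p_k ≡ a (mod N)` and
`p_{k+1} - p_k = d`. -/
def OftenGap (N a d : ℕ) : Prop :=
  ∃ C : ℕ, ∃ᶠ x : ℕ in atTop, (x : ℝ) / (Real.log x) ^ C ≤
    ({k : ℕ | Nat.nth Nat.Prime k ≤ x ∧ Nat.nth Nat.Prime k ≡ a [MOD N] ∧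
      Nat.nth Nat.Prime (k + 1) = Nat.nth Nat.Prime k + d}.ncard : ℝ)

/-- Let `N` be even, `a` prime to `N`, and `m` a positive multiple of `N`. There is `c > 0` such that every
sufficiently large multiple `n` of `6 m` has at least `c n ^ 2` representations `n = d 0 + d 1 + d 2` with
multiples `d i` of `m` which are often gaps between consecutive primes, after primes `≡ a (mod N)`. For
`m = N = 2`, `a = 1`: every sufficiently large multiple `n` of `12` has at least `c n ^ 2` representations as a
sum of three gaps between consecutive primes which occur infinitely often. -/
theorem result (m N a : ℕ) (hm : 0 < m) (hN : Even N) (hNm : N ∣ m) (ha : a.Coprime N) :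
    ∃ c : ℝ, 0 < c ∧ ∀ᶠ n : ℕ in atTop, 6 * m ∣ n → c * (n : ℝ) ^ 2 ≤
      ({d : Fin 3 → ℕ | n = d 0 + d 1 + d 2 ∧ ∀ i, m ∣ d i ∧ OftenGap N a (d i)}.ncard : ℝ) :=
  Pool.Agent.P8H77.SG.three_nar_count m N a hm hN.two_dvd hNm ha (OftenGap N a)
    fun _ h => Pool.Agent.P8H77.SG.log_count h

end Pool.Agent.Results.MP_3ec731_nt.SumsOfThreeGaps
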