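import Mathlib
import Pool.Agent.P8H77.SG.App3

/-!
# Sums of two gaps between consecutive primes

The case `k = 2` of the problem asks whether every even number `d` is infinitely often the difference of two
consecutive primes. Theorem: for every sufficiently large `s` one of the three numbers `6 s - 2`, `6 s`,
`6 s + 2` is a sum `d₁ + d₂` of two numbers with this property; moreover the three numbers have together at
least `c s` such representations (`c > 0`), and each of `d₁`, `d₂` is the difference of two consecutive primes
for at least `x / (log x) ^ C` primes up to `x`, for arbitrarily large `x`.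

More generally, let `N₁`, `N₂` be even, `a₁` prime to `N₁`, `a₂` prime to `N₂`, and let `m` be a common
multiple of `N₁` and `N₂`. For all large `t` such that `3` divides `m t`, the numbers `m t - m`, `m t`,
`m t + m` have together at least `c t` representations as `d₁ + d₂` with multiples `d₁`, `d₂` of `m` which are
gaps in this sense, after primes `≡ a₁ (mod N₁)` and after primes `≡ a₂ (mod N₂)` respectively.

The proof. The coloured Maynard-Tao theorem with exact patterns (starting files, `Pool.Agent.Y827.RO.blockE`)
gives: any four classes of `K` shifts which miss a residue class modulo every prime contain two shifts, of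
different classes, whose difference is in the set `D` of these gaps (in units of `m`). Suppose that for
arbitrarily large `t` there are few pairs in `D₁ × D₂` with sum `t - 1`, `t` or `t + 1`. Then there are long
increasing sequences `b` of highly divisible numbers such that no such pair arises from the numbers below. Let
`Rₖ` be the set of the `z` for which `b j - b i + z` is in `Dₖ`, and `Uₖ` the set of the `z` for which
`t - (b j - b i) - z` is in `Dₖ` (for almost all `t`, `i`, `j` along ultrafilters). By hypothesis
`R₁ + {-1, 0, 1}` and `U₂` are disjoint, and so are `R₂ + {-1, 0, 1}` and `U₁`. Four classes `t + b i`,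
`t + b i + x`, `b i`, `b i + x` show that `x ∉ Rₖ` implies that `-x`, `0` or `x` is in `Uₖ`. By induction both
`Rₖ` contain all integers, so `U₁` is empty, and `D₁` has long holes; but translation of two classes into a
hole shows that this is impossible.
-/

set_option autoImplicit false

namespace Pool.Agent.Results.MP_3ec731_nt.SumsOfTwoGaps

open Filter

/-- `d` is a gap between consecutive primes which occurs often: there is `C` such that for arbitrarily large
`x` there are at least `x / (log x) ^ C` indices `k` with `p_k ≤ x`, `p_k ≡ a (mod N)` and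
`p_{k+1} - p_k = d`. -/
def OftenGap (N a d : ℕ) : Prop :=
  ∃ C : ℕ, ∃ᶠ x : ℕ in atTop, (x : ℝ) / (Real.log x) ^ C ≤
    ({k : ℕ | Nat.nth Nat.Prime k ≤ x ∧ Nat.nth Nat.Prime k ≡ a [MOD N] ∧
      Nat.nth Nat.Prime (k + 1) = Nat.nth Nat.Prime k + d}.ncard : ℝ)

/-- Let `N₁`, `N₂` be even, `a₁` prime to `N₁`, `a₂` prime to `N₂`, and `m` a positive common multiple of `N₁`
and `N₂`. There is `c > 0` such that for all sufficiently large `t` with `3 ∣ m t` there are at least `c t`
pairs `(d₁, d₂)` whose sum is one of `m t - m`, `m t`, `m t + m`, where `d₁`, `d₂` are multiples of `m` which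
are often gaps between consecutive primes, after primes `≡ a₁ (mod N₁)` and `≡ a₂ (mod N₂)` respectively. For
`m = N₁ = N₂ = 2`, `a₁ = a₂ = 1`, `t = 3 s`: for all large `s` one of the numbers `6 s - 2`, `6 s`, `6 s + 2` is
a sum of two gaps between consecutive primes which occur infinitely often. -/
theorem result (m N₁ N₂ a₁ a₂ : ℕ) (hm : 0 < m) (hN₁ : Even N₁) (hN₂ : Even N₂) (hNm₁ : N₁ ∣ m)
    (hNm₂ : N₂ ∣ m) (ha₁ : a₁.Coprime N₁) (ha₂ : a₂.Coprime N₂) :
    ∃ c : ℝ, 0 < c ∧ ∀ᶠ t : ℕ in atTop, 3 ∣ m * t → c * (t : ℝ) ≤
      ({d : ℕ × ℕ | (d.1 + d.2 + m = m * t ∨ d.1 + d.2 = m * t ∨ d.1 + d.2 = m * t + m) ∧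
        (m ∣ d.1 ∧ OftenGap N₁ a₁ d.1) ∧ (m ∣ d.2 ∧ OftenGap N₂ a₂ d.2)}.ncard : ℝ) :=
  Pool.Agent.P8H77.SG.two_nar_count m N₁ a₁ N₂ a₂ hm hN₁.two_dvd hNm₁ ha₁ hN₂.two_dvd hNm₂ ha₂
    (OftenGap N₁ a₁) (OftenGap N₂ a₂) (fun _ h => Pool.Agent.P8H77.SG.log_count h)
    fun _ h => Pool.Agent.P8H77.SG.log_count h

end Pool.Agent.Results.MP_3ec731_nt.SumsOfTwoGaps
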